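import Mathlib

set_option autoImplicit false
open Finset Equiv Classical Filter Topology
open scoped Nat

namespace Pool.Agent.Results.MP_d8535d_co.Equal

/-- The first k entries and the last k entries have the same reduction. -/
def Ov {n : ℕ} (τ : Perm (Fin n)) (k : ℕ) : Prop :=
  ∀ x y x' y' : Fin n, x.val < k → y.val < k → x'.val = x + (n - k) → y'.val = y + (n - k) →
    (τ x < τ y ↔ τ x' < τ y')

def MO {n : ℕ} (τ : Perm (Fin n)) : Prop := ∀ k, 2 ≤ k → k ≤ n - 1 → ¬ Ov τ k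

noncomputable def p (n m : ℕ) : ℝ :=
  ((univ.filter fun τ : Perm (Fin n) => MO τ ∧ ∃ h : 0 < n, (τ ⟨0, h⟩).val + 1 = m).card : ℝ) /
    (n - 1)!

theorem orb {n : ℕ} {Γ : Type} (G : Finset Γ) (ψ : Γ → Perm (Fin n)) (S T : Finset (Perm (Fin n)))
    (h1 : ∀ τ ∈ S, ∀ g ∈ G, τ * ψ g ∈ T)
    (h2 : ∀ τ ∈ S, ∀ τ' ∈ S, ∀ g ∈ G, ∀ g' ∈ G, τ * ψ g = τ' * ψ g' → g = g') :
    S.card * G.card ≤ T.card := by
  rw [← card_product]
  refine card_le_card_of_injOn (fun x => x.1 * ψ x.2) (fun x hx => ?_) fun x hx y hy e => ?_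
  · exact h1 _ (mem_product.mp hx).1 _ (mem_product.mp hx).2
  · have := h2 _ (mem_product.mp hx).1 _ (mem_product.mp hy).1 _ (mem_product.mp hx).2 _
      (mem_product.mp hy).2 e
    exact Prod.ext (by simpa [this] using e) this

theorem red {n : ℕ} (τ : Perm (Fin n)) (k : ℕ) (h1 : 2 ≤ k) (h2 : k ≤ n - 1) (h : Ov τ k) :
    ∃ k, 2 ≤ k ∧ k ≤ n - 1 ∧ 2 * k ≤ n + 1 ∧ Ov τ k := by
  induction k using Nat.strong_induction_on with
  | h k ih =>
    by_cases c : 2 * k ≤ n + 1
    · exact ⟨k, h1, h2, c, h⟩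
    refine ih (2 * k - n) (by omega) (by omega) (by omega) fun x y x' y' a b d e => ?_
    rw [h x y ⟨x + (n - k), by omega⟩ ⟨y + (n - k), by omega⟩ (by omega) (by omega) rfl rfl]
    exact h _ _ _ _ (by simp; omega) (by simp; omega) (by simp; omega) (by simp; omega)

variable {N : ℕ}

theorem c1 (u : Fin (N + 1)) : (univ.filter fun τ : Perm (Fin (N + 1)) => τ 0 = u).card ≤ N ! := by
  have := orb univ (swap 0) (univ.filter fun τ : Perm (Fin (N + 1)) => τ 0 = u) univ (by simp)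
    fun τ hτ τ' hτ' g _ g' _ e => by
      have e1 := congrArg (· g) e
      simp only [mem_filter, mem_univ, true_and, Perm.mul_apply, swap_apply_right] at hτ hτ' e1
      rw [hτ, ← hτ', τ'.injective.eq_iff, eq_comm, swap_apply_eq_iff, swap_apply_left] at e1
      exact e1
  rw [card_univ, card_univ, Fintype.card_perm, Fintype.card_fin, Nat.factorial_succ, mul_comm] at this
  exact Nat.le_of_mul_le_mul_left this (by omega)

theorem c2 (u u' j : Fin (N + 1)) (h : u ≠ u') :
    (univ.filter fun τ : Perm (Fin (N + 1)) => τ 0 = u ∧ τ j = u').card * N ≤ N ! := by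
  have := orb (univ.erase 0) (swap j) (univ.filter fun τ : Perm (Fin (N + 1)) => τ 0 = u ∧ τ j = u')
    (univ.filter fun τ => τ 0 = u) (fun τ hτ g hg => by
      simp only [mem_filter, mem_univ, true_and, Perm.mul_apply, mem_erase] at *
      rw [swap_apply_of_ne_of_ne (fun e => h (by rw [← hτ.1, e, hτ.2])) hg.1.symm, hτ.1])
    fun τ hτ τ' hτ' g _ g' _ e => by
      have e1 := congrArg (· g) e
      simp only [mem_filter, mem_univ, true_and, Perm.mul_apply, swap_apply_right] at hτ hτ' e1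
      rw [hτ.2, ← hτ'.2, τ'.injective.eq_iff, eq_comm, swap_apply_eq_iff, swap_apply_left] at e1
      exact e1
  simpa using this.trans (c1 u)

theorem c3 (u : Fin (N + 1)) (k : ℕ) (hk : 2 * (k + 1) ≤ N + 2) :
    (univ.filter fun τ : Perm (Fin (N + 1)) => τ 0 = u ∧ Ov τ (k + 1)).card * k ! ≤ N ! := by
  let ι : Fin k ↪ Fin (N + 1) := ⟨fun a => ⟨a + (N + 1 - k), by omega⟩, fun a b h =>
    Fin.ext (by simpa using h)⟩
  have f : ∀ (g : Perm (Fin k)) (x : Fin (N + 1)), x.val < k + 1 → g.viaEmbedding ι x = x :=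
    fun g x hx => Perm.viaEmbedding_apply_of_notMem _ _ _ fun ⟨a, e⟩ => by
      have := congrArg Fin.val e; simp [ι] at this; omega
  have := orb univ (fun g : Perm (Fin k) => g.viaEmbedding ι)
    (univ.filter fun τ : Perm (Fin (N + 1)) => τ 0 = u ∧ Ov τ (k + 1))
    (univ.filter fun τ => τ 0 = u) (fun τ hτ g hg => by
      simp only [mem_filter, mem_univ, true_and, Perm.mul_apply] at *
      rw [f _ _ (by simp), hτ.1])
    fun τ hτ τ' hτ' g _ g' _ e => by
      have e1 := fun x => congrArg (· x) e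
      simp only [mem_filter, mem_univ, true_and, Perm.mul_apply] at hτ hτ' e1
      have e2 : ∀ a b, τ (ι a) < τ (ι b) ↔ τ' (ι a) < τ' (ι b) := fun a b => by
        have q : ∀ a : Fin k, (ι a).val = a + 1 + (N + 1 - (k + 1)) := fun a => by
          simp [ι]; omega
        have r : ∀ a : Fin k, τ ⟨a + 1, by omega⟩ = τ' ⟨a + 1, by omega⟩ := fun a => by
          simpa [f] using e1 ⟨a + 1, by omega⟩
        rw [← hτ.2 ⟨a + 1, by omega⟩ ⟨b + 1, by omega⟩ _ _ (by simp) (by simp) (q a) (q b),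
          ← hτ'.2 ⟨a + 1, by omega⟩ ⟨b + 1, by omega⟩ _ _ (by simp) (by simp) (q a) (q b), r, r]
      have e3 : ∀ a, τ (ι (g a)) = τ' (ι (g' a)) := fun a => by
        simpa [Perm.viaEmbedding_apply] using e1 (ι a)
      have e4 : ∀ a b, τ (ι a) < τ (ι b) ↔ τ (ι ((g' * g⁻¹) a)) < τ (ι ((g' * g⁻¹) b)) :=
        fun a b => by
          rw [e2 ((g' * g⁻¹) a), Perm.mul_apply, Perm.mul_apply, ← e3, ← e3]; simp
      by_contra ne
      obtain ⟨a, ha⟩ : ∃ a, (g' * g⁻¹) a ≠ a := by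
        by_contra c
        push Not at c
        exact ne (mul_inv_eq_one.mp (Perm.ext c)).symm
      let _ : LinearOrder (Fin k) := LinearOrder.lift' (fun a => τ (ι a))
        (τ.injective.comp ι.injective)
      exact ha (StrictMono.apply_eq (f := ⇑(g' * g⁻¹)) fun a b h => (e4 a b).mp h)
  simpa [Fintype.card_perm] using this.trans (c1 u)

theorem step (u u' : Fin (N + 1)) (h : u.val + 1 = u' ∨ u'.val + 1 = u) (J : ℕ) (hJ : 5 ≤ J)
    (hN : 0 < N) : p (N + 1) (u + 1) ≤ p (N + 1) (u' + 1) + (J / N + 2 / J) := by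
  have ne : u ≠ u' := by omega
  have m : ∀ x y, ¬ (x = u ∧ y = u') → ¬ (x = u' ∧ y = u) → (swap u u' x < swap u u' y ↔ x < y) := by
    intro x y a b
    simp only [swap_apply_def]
    split_ifs <;> omega
  have s : (univ.filter fun τ : Perm (Fin (N + 1)) => MO τ ∧ τ 0 = u) ⊆
      (univ.filter fun τ : Perm (Fin (N + 1)) => MO τ ∧ τ 0 = u').image (swap u u' * ·) ∪
      ((univ.filter fun j : Fin (N + 1) => j.val < J).biUnion fun j =>
        univ.filter fun τ : Perm (Fin (N + 1)) => τ 0 = u ∧ τ j = u') ∪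
      (Ioo J ((N + 2) / 2 + 1)).biUnion fun k =>
        (univ.filter fun τ : Perm (Fin (N + 1)) => τ 0 = u' ∧ Ov τ k).image (swap u u' * ·) := by
    intro τ hτ
    simp only [mem_filter, mem_univ, true_and, mem_union, mem_image, mem_biUnion, mem_Ioo] at hτ ⊢
    have t0 : (swap u u' * τ) 0 = u' := by simp [hτ.2]
    by_cases c : MO (swap u u' * τ)
    · exact Or.inl (Or.inl ⟨_, ⟨c, t0⟩, by simp [← mul_assoc]⟩)
    simp only [MO, not_forall, not_not] at c
    obtain ⟨k, a, b, c⟩ := c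
    obtain ⟨k, a, b, d, c⟩ := red _ k a b c
    by_cases e : J < k
    · exact Or.inr ⟨k, ⟨e, by omega⟩, _, ⟨t0, c⟩, by simp [← mul_assoc]⟩
    refine Or.inl (Or.inr ⟨τ⁻¹ u', ?_, hτ.2, by simp⟩)
    by_contra g
    refine hτ.1 k a b fun x y x' y' i1 i2 i3 i4 => ?_
    have z : ∀ w, τ w = u → w = 0 := fun w hw => τ.injective (hw.trans hτ.2.symm)
    have z' : ∀ w, τ w = u' → J ≤ w.val := fun w hw => by rw [← hw] at g; simpa using g
    rw [← m (τ x) (τ y) (fun q => by have := z' _ q.2; omega) (fun q => by have := z' _ q.1; omega),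
      ← m (τ x') (τ y') (fun q => by have := z _ q.1; subst this; simp at i3; omega)
        (fun q => by have := z _ q.2; subst this; simp at i4; omega)]
    exact c x y x' y' i1 i2 i3 i4
  have F : (0 : ℝ) < N ! := by positivity
  have N0 : (0 : ℝ) < N := by positivity
  have s1 : ((univ.filter fun τ : Perm (Fin (N + 1)) => MO τ ∧ τ 0 = u).card : ℝ) ≤ _ :=
    Nat.cast_le.mpr ((card_le_card s).trans ((card_union_le _ _).trans (add_le_add
      ((card_union_le _ _).trans (add_le_add card_image_le card_biUnion_le))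
      (card_biUnion_le.trans (sum_le_sum fun _ _ => card_image_le)))))
  push_cast at s1
  have s2 : ∑ j ∈ univ.filter fun j : Fin (N + 1) => j.val < J,
      ((univ.filter fun τ : Perm (Fin (N + 1)) => τ 0 = u ∧ τ j = u').card : ℝ) ≤ J * (N ! / N) := by
    refine (sum_le_card_nsmul _ _ (N ! / N : ℝ) fun j _ => ?_).trans ?_
    · rw [le_div_iff₀ N0]; exact_mod_cast c2 u u' j ne
    · rw [nsmul_eq_mul]
      gcongr
      exact (card_le_card_of_injOn (t := range J) Fin.val (by simp [Set.MapsTo])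
        Fin.val_injective.injOn).trans (by simp)
  have s3 : ∑ k ∈ Ioo J ((N + 2) / 2 + 1),
      ((univ.filter fun τ : Perm (Fin (N + 1)) => τ 0 = u' ∧ Ov τ k).card : ℝ) ≤ N ! * (2 / (J + 1)) := by
    refine le_trans ?_ (mul_le_mul_of_nonneg_left (sum_Ioo_inv_sq_le J ((N + 2) / 2 + 1)) F.le)
    rw [mul_sum]
    refine sum_le_sum fun k hk => ?_
    rw [mem_Ioo] at hk
    obtain ⟨k, rfl⟩ : ∃ i, k = i + 1 := ⟨k - 1, by omega⟩
    have a : ∀ i, 5 ≤ i → (i + 1) ^ 2 ≤ i ! := fun i hi => by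
      induction i, hi using Nat.le_induction with
      | base => decide
      | succ i hi ih => rw [Nat.factorial_succ]; nlinarith
    rw [← div_eq_mul_inv, le_div_iff₀ (by positivity)]
    exact_mod_cast (Nat.mul_le_mul_left _ (a k (by omega))).trans (c3 u' k (by omega))
  have J0 : (0 : ℝ) < J := by have : 0 < J := by omega
                              positivity
  have s4 : (2 : ℝ) / (J + 1) ≤ 2 / J := by gcongr; linarith
  simp only [p, Nat.add_sub_cancel, Nat.succ_pos, exists_true_left, add_left_inj, Fin.val_inj,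
    Fin.zero_eta]
  rw [div_add' _ _ _ F.ne', div_le_div_iff_of_pos_right F]
  have : (J : ℝ) * (N ! / N) = J / N * N ! := by ring
  nlinarith

theorem main (a b : ℕ) (ha : 1 ≤ a) (hb : 1 ≤ b) :
    Tendsto (fun n => p n a - p n b) atTop (𝓝 0) := by
  have s : ∀ m, Tendsto (fun n => p n (m + 1) - p n (m + 2)) atTop (𝓝 0) := fun m => by
    rw [← tendsto_add_atTop_iff_nat 1, Metric.tendsto_atTop]
    intro ε hε
    obtain ⟨J, hJ⟩ := exists_nat_gt (max 5 (4 / ε))
    obtain ⟨M, hM⟩ := exists_nat_gt (2 * J / ε)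
    refine ⟨M + m + 1, fun N hN => ?_⟩
    have j5 : (5 : ℝ) < J := lt_of_le_of_lt (le_max_left _ _) hJ
    have j4 := (div_lt_iff₀ hε).mp (lt_of_le_of_lt (le_max_right _ _) hJ)
    have h1 := step (N := N) ⟨m, by omega⟩ ⟨m + 1, by omega⟩ (by simp) J (by exact_mod_cast j5.le)
      (by omega)
    have h2 := step (N := N) ⟨m + 1, by omega⟩ ⟨m, by omega⟩ (by simp) J (by exact_mod_cast j5.le)
      (by omega)
    have n1 : (M : ℝ) < N := by exact_mod_cast (show M < N by omega)
    rw [div_lt_iff₀ hε] at hM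
    have n2 : (J : ℝ) / N < ε / 2 := by
      rw [div_lt_iff₀ (lt_of_le_of_lt (Nat.cast_nonneg M) n1)]; nlinarith
    have n3 : (2 : ℝ) / J < ε / 2 := by rw [div_lt_iff₀ (by linarith)]; nlinarith
    rw [Real.dist_eq, sub_zero, abs_lt]
    constructor <;> simp only at h1 h2 <;> linarith
  have t : ∀ m, Tendsto (fun n => p n 1 - p n (m + 1)) atTop (𝓝 0) := fun m => by
    induction m with
    | zero => simp
    | succ m ih => simpa using ih.add (s m)
  obtain ⟨a, rfl⟩ : ∃ i, a = i + 1 := ⟨a - 1, by omega⟩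
  obtain ⟨b, rfl⟩ : ∃ i, b = i + 1 := ⟨b - 1, by omega⟩
  simpa using (t b).sub (t a)

theorem result (a b : ℕ) (ha : 1 ≤ a) (hb : 1 ≤ b) :
    Tendsto (fun n => p n a - p n b) atTop (𝓝 0) ∧
    ∀ La Lb : ℝ, Tendsto (fun n => p n a) atTop (𝓝 La) → Tendsto (fun n => p n b) atTop (𝓝 Lb) →
      La = Lb :=
  ⟨main a b ha hb, fun _ _ h1 h2 => sub_eq_zero.mp (tendsto_nhds_unique (h1.sub h2) (main a b ha hb))⟩

end Pool.Agent.Results.MP_d8535d_co.Equal
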